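import Mathlib
import Pool.Agent.K4H98.SubseriesNull

/-!
# `𝔰𝔰_c = 𝔰𝔰_cc`
-/

open Cardinal Set Filter Pool.Agent.K4H98.Subseries Pool.Agent.K4H98.SubseriesNull

namespace Pool.Agent.Results.MP_d37bef_lc.ConvergentEqCond

/-- The two subseries numbers `𝔰𝔰_c` and `𝔰𝔰_cc` are equal. -/
theorem result : ssC = ssCC := ssC_eq_ssCC

end Pool.Agent.Results.MP_d37bef_lc.ConvergentEqCond
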