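import Mathlib
import Pool.Agent.K4H98.SubseriesLoc

/-!
# `𝔰𝔰_cc ≤ 𝔠^∀_{c,h}`

ZFC theorem: for every `h : ω → ω` with positive values and every `c : ω → ω` growing fast enough
relative to `h`, the subseries number `𝔰𝔰_cc` is at most the localization number `𝔠^∀_{c,h}` of
the *bounded* product `∏ c(n)` by slaloms of width `h`.  In every extension of a model of CH by a
forcing with the Laver property (Laver's model, Miller's model) these localization numbers are
`ℵ₁`, while `𝔡 = ℵ₂` there.
-/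

open Cardinal Set Filter Pool.Agent.K4H98.Subseries Pool.Agent.K4H98.SubseriesLoc

namespace Pool.Agent.Results.MP_d37bef_lc.LocalizationBound

/-- For every `h ≥ 1` there is `c₀` such that `𝔰𝔰_cc ≤ 𝔠^∀_{c,h}` for all `c ≥ c₀`. -/
theorem result (h : ℕ → ℕ) (hh : ∀ n, 1 ≤ h n) :
    ∃ c₀ : ℕ → ℕ, ∀ c : ℕ → ℕ, (∀ n, c₀ n ≤ c n) → ssCC ≤ localizationNumber c h :=
  ⟨cc h, fun c hc => ssCC_le_localizationNumber h hh c hc⟩

end Pool.Agent.Results.MP_d37bef_lc.LocalizationBound
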