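import Mathlib
import Pool.Agent.K4H98.SubseriesNull

/-!
# `min {𝔡, cov(𝒩)} ≤ 𝔰𝔰_c`

ZFC theorem: the convergent subseries number `𝔰𝔰_c` (hence also `𝔰𝔰_cc`) is at least
`min {𝔡, cov(𝒩)}`.  Given fewer than `min {𝔡, cov(𝒩)}` infinite co-infinite index sets, a fast
interval partition and random signs of size `1/k` on the `k`-th interval give a conditionally
convergent series none of whose subseries indexed by the given sets converges.
-/

open Cardinal Set Filter Pool.Agent.K4H98.Subseries Pool.Agent.K4H98.SubseriesNull

namespace Pool.Agent.Results.MP_d37bef_lc.NullCoveringBound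

/-- `min {𝔡, cov(𝒩)} ≤ 𝔰𝔰_c`. -/
theorem result : min dominatingNumber covNull ≤ ssC := min_le_ssC

end Pool.Agent.Results.MP_d37bef_lc.NullCoveringBound
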